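import Pool.Agent.K4H65.EM.Spec

set_option autoImplicit false

namespace Pool.Agent.K4H65.EM

open Finset

theorem step : S_TT → S_STEP := by
  classical
  intro hTT n d L m G S hm hP1 hP2 hC U hU
  obtain ⟨T, hT, hcn⟩ := hTT n L m G hm hP2 U hU
  -- pairs inside `U \ T`
  obtain ⟨S', hS'⟩ : ∃ S' : Fin d → Finset (Fin n × Fin n), ∀ i e, e ∈ S' i ↔ e ∈ S i ∧ e.1 ∈ U \ T ∧ e.2 ∈ U \ T :=
    ⟨fun i => (S i).filter fun e => e.1 ∈ U \ T ∧ e.2 ∈ U \ T, fun i e => by simp only [mem_filter]⟩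
  obtain ⟨A, hA⟩ : ∃ A : Fin d → Finset (Fin n), ∀ i, A i = (S' i).image Prod.fst := ⟨_, fun _ => rfl⟩
  obtain ⟨B, hB⟩ : ∃ B : Fin d → Finset (Fin n), ∀ i, B i = (S' i).image Prod.snd := ⟨_, fun _ => rfl⟩
  obtain ⟨I1, hI1⟩ : ∃ I1 : Finset (Fin d), ∀ i, i ∈ I1 ↔ (S' i).Nonempty ∧ ((A i).card ≤ 1 ∨ (B i).card ≤ 1) :=
    ⟨univ.filter fun i => (S' i).Nonempty ∧ ((A i).card ≤ 1 ∨ (B i).card ≤ 1), fun i => by simp⟩
  obtain ⟨I2, hI2⟩ : ∃ I2 : Finset (Fin d), ∀ i, i ∈ I2 ↔ (S' i).Nonempty ∧ 2 ≤ (A i).card ∧ 2 ≤ (B i).card :=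
    ⟨univ.filter fun i => (S' i).Nonempty ∧ 2 ≤ (A i).card ∧ 2 ≤ (B i).card, fun i => by simp⟩
  -- centres
  have hcen : ∀ i, i ∈ I1 → ∃ c : Fin n, ∀ e ∈ S' i, e.1 = c ∨ e.2 = c := by
    intro i hi
    obtain ⟨⟨e0, he0⟩, h | h⟩ := (hI1 i).1 hi
    · refine ⟨e0.1, fun e he => Or.inl ?_⟩
      rw [hA] at h
      exact card_le_one.1 h _ (mem_image_of_mem _ he) _ (mem_image_of_mem _ he0)
    · refine ⟨e0.2, fun e he => Or.inr ?_⟩
      rw [hB] at h
      exact card_le_one.1 h _ (mem_image_of_mem _ he) _ (mem_image_of_mem _ he0)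
  obtain ⟨c, hc⟩ : ∃ c : Fin d → Option (Fin n), ∀ i ∈ I1, ∀ e ∈ S' i, c i = some e.1 ∨ c i = some e.2 := by
    have : ∀ i, ∃ c : Option (Fin n), i ∈ I1 → ∀ e ∈ S' i, c = some e.1 ∨ c = some e.2 := by
      intro i
      by_cases hi : i ∈ I1
      · obtain ⟨c, hc⟩ := hcen i hi
        exact ⟨some c, fun _ e he => (hc e he).imp (fun h => by rw [h]) (fun h => by rw [h])⟩
      · exact ⟨none, fun h => absurd h hi⟩
    choose c hc using this
    exact ⟨c, fun i hi => hc i hi⟩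
  obtain ⟨U1, hU1⟩ : ∃ U1 : Finset (Fin n), ∀ x, x ∈ U1 ↔ x ∈ U \ T ∧ ∀ i ∈ I1, c i ≠ some x :=
    ⟨(U \ T).filter fun x => ∀ i ∈ I1, c i ≠ some x, fun x => by simp only [mem_filter]⟩
  -- a pair inside `U1` belongs to type II
  have h2 : ∀ i e, e ∈ S i → e.1 ∈ U1 → e.2 ∈ U1 → e ∈ S' i ∧ i ∈ I2 := by
    intro i e he h1 h2
    have he' : e ∈ S' i := (hS' i e).2 ⟨he, ((hU1 _).1 h1).1, ((hU1 _).1 h2).1⟩
    refine ⟨he', ?_⟩
    by_contra hn
    have hi1 : i ∈ I1 := by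
      rw [hI1]
      refine ⟨⟨e, he'⟩, ?_⟩
      by_contra hcon
      push_neg at hcon
      exact hn ((hI2 i).2 ⟨⟨e, he'⟩, by omega, by omega⟩)
    rcases hc i hi1 e he' with h | h
    · exact ((hU1 _).1 h1).2 i hi1 h
    · exact ((hU1 _).1 h2).2 i hi1 h
  refine ⟨U1, I1.card, I2.card, ?_, ?_, ?_, ?_⟩
  · unfold act
    refine card_le_card fun i hi => ?_
    obtain ⟨e, he, h1, h3⟩ := (mem_filter.1 hi).2
    exact (h2 i e he h1 h3).2
  · have hdis : Disjoint I1 I2 := by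
      rw [disjoint_left]
      intro i h1 h3
      have := (hI1 i).1 h1
      have := (hI2 i).1 h3
      omega
    rw [← card_union_of_disjoint hdis]
    unfold act
    refine card_le_card fun i hi => ?_
    rw [mem_filter]
    refine ⟨mem_univ _, ?_⟩
    have hne : (S' i).Nonempty := by
      rcases mem_union.1 hi with h | h
      · exact ((hI1 i).1 h).1
      · exact ((hI2 i).1 h).1
    obtain ⟨e, he⟩ := hne
    obtain ⟨g1, g2, g3⟩ := (hS' i e).1 he
    exact ⟨e, g1, (mem_sdiff.1 g2).1, (mem_sdiff.1 g3).1⟩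
  · -- cardinality
    have hsub : U ⊆ U1 ∪ T ∪ (I1.image c).eraseNone := by
      intro x hx
      by_cases hxT : x ∈ T
      · exact mem_union_left _ (mem_union_right _ hxT)
      · by_cases hx1 : x ∈ U1
        · exact mem_union_left _ (mem_union_left _ hx1)
        · refine mem_union_right _ ?_
          rw [mem_eraseNone]
          rw [hU1] at hx1
          push_neg at hx1
          obtain ⟨i, hi, hci⟩ := hx1 (mem_sdiff.2 ⟨hx, hxT⟩)
          exact mem_image.2 ⟨i, hi, hci⟩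
    have h3 := card_le_card hsub
    have h4 := card_union_le (U1 ∪ T) (I1.image c).eraseNone
    have h5 := card_union_le U1 T
    have h6 : (I1.image c).eraseNone.card ≤ I1.card := by
      refine le_trans ?_ (card_image_le (s := I1) (f := c))
      have : ((I1.image c).eraseNone.map Function.Embedding.some).card ≤ (I1.image c).card := by
        refine card_le_card fun y hy => ?_
        obtain ⟨x, hx, rfl⟩ := mem_map.1 hy
        exact mem_eraseNone.1 hx
      rwa [card_map] at this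
    omega
  · intro hL
    have h3 := hP1 U1 hL
    -- sizes for type II
    have hsz : ∀ i ∈ I2, 64 * 1024 * (S' i).card ≤ 2 * U.card := by
      intro i hi
      obtain ⟨-, hA2, hB2⟩ := (hI2 i).1 hi
      have hf := hC.forest i (S' i) (fun e he => ((hS' i e).1 he).1)
      rw [← hA, ← hB] at hf
      have ha : 64 * 1024 * (A i).card < U.card := by
        obtain ⟨b, hb, b', hb', hbb⟩ := one_lt_card.1 (by omega : 1 < (B i).card)
        rw [hB] at hb hb'
        obtain ⟨e, he, rfl⟩ := mem_image.1 hb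
        obtain ⟨e', he', rfl⟩ := mem_image.1 hb'
        have g := hcn e.2 (mem_sdiff.1 ((hS' i e).1 he).2.2).2 e'.2 (mem_sdiff.1 ((hS' i e').1 he').2.2).2 hbb
        refine lt_of_le_of_lt (Nat.mul_le_mul_left _ ?_) g
        unfold cn
        refine card_le_card fun x hx => ?_
        rw [hA] at hx
        obtain ⟨f, hf', rfl⟩ := mem_image.1 hx
        rw [mem_filter]
        refine ⟨(mem_sdiff.1 ((hS' i f).1 hf').2.1).1, ?_, ?_⟩
        · exact (hC.bic i f.1 f.2 e.1 e.2 ((hS' i f).1 hf').1 ((hS' i e).1 he).1).symm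
        · exact (hC.bic i f.1 f.2 e'.1 e'.2 ((hS' i f).1 hf').1 ((hS' i e').1 he').1).symm
      have hb : 64 * 1024 * (B i).card < U.card := by
        obtain ⟨a, ha1, a', ha2, haa⟩ := one_lt_card.1 (by omega : 1 < (A i).card)
        rw [hA] at ha1 ha2
        obtain ⟨e, he, rfl⟩ := mem_image.1 ha1
        obtain ⟨e', he', rfl⟩ := mem_image.1 ha2
        have g := hcn e.1 (mem_sdiff.1 ((hS' i e).1 he).2.1).2 e'.1 (mem_sdiff.1 ((hS' i e').1 he').2.1).2 haa
        refine lt_of_le_of_lt (Nat.mul_le_mul_left _ ?_) g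
        unfold cn
        refine card_le_card fun x hx => ?_
        rw [hB] at hx
        obtain ⟨f, hf', rfl⟩ := mem_image.1 hx
        rw [mem_filter]
        refine ⟨(mem_sdiff.1 ((hS' i f).1 hf').2.2).1, ?_, ?_⟩
        · exact hC.bic i e.1 e.2 f.1 f.2 ((hS' i e).1 he).1 ((hS' i f).1 hf').1
        · exact hC.bic i e'.1 e'.2 f.1 f.2 ((hS' i e').1 he').1 ((hS' i f).1 hf').1
      omega
    -- the adjacent pairs
    have hadj : ((U1 ×ˢ U1).filter fun e => G.Adj e.1 e.2).card ≤ 2 * ∑ i ∈ I2, (S' i).card := by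
      have hsub : ((U1 ×ˢ U1).filter fun e => G.Adj e.1 e.2) ⊆
          (I2.biUnion S') ∪ (I2.biUnion S').image Prod.swap := by
        intro e he
        obtain ⟨g1, g2⟩ := mem_filter.1 he
        obtain ⟨g3, g4⟩ := mem_product.1 g1
        obtain ⟨i, hi | hi⟩ := hC.cov e.1 e.2 g2
        · obtain ⟨k1, k2⟩ := h2 i (e.1, e.2) hi g3 g4
          exact mem_union_left _ (mem_biUnion.2 ⟨i, k2, k1⟩)
        · obtain ⟨k1, k2⟩ := h2 i (e.2, e.1) hi g4 g3
          refine mem_union_right _ (mem_image.2 ⟨(e.2, e.1), mem_biUnion.2 ⟨i, k2, k1⟩, rfl⟩)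
      have g1 := card_le_card hsub
      have g2 := card_union_le (I2.biUnion S') ((I2.biUnion S').image Prod.swap)
      have g3 := card_image_le (s := I2.biUnion S') (f := Prod.swap)
      have g4 : (I2.biUnion S').card ≤ ∑ i ∈ I2, (S' i).card := card_biUnion_le
      omega
    have hsum : 64 * 1024 * ∑ i ∈ I2, (S' i).card ≤ I2.card * (2 * U.card) := by
      rw [mul_sum]
      exact sum_le_card_nsmul _ _ _ hsz
    have h7 : 64 * 1024 * U1.card ^ 2 ≤ 64 * 1024 * (8 * 1024 * (2 * ∑ i ∈ I2, (S' i).card)) :=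
      Nat.mul_le_mul_left _ (h3.trans (Nat.mul_le_mul_left _ hadj))
    have h8 : 64 * 1024 * (8 * 1024 * (2 * ∑ i ∈ I2, (S' i).card)) =
        16 * 1024 * (64 * 1024 * ∑ i ∈ I2, (S' i).card) := by ring
    rw [h8] at h7
    have h9 := h7.trans (Nat.mul_le_mul_left (16 * 1024) hsum)
    have h10 : 16 * 1024 * (I2.card * (2 * U.card)) = 32 * 1024 * (I2.card * U.card) := by ring
    rw [h10] at h9
    omega

end Pool.Agent.K4H65.EM
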