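import Pool.Agent.K4H65.EM.Spec

set_option autoImplicit false

namespace Pool.Agent.K4H65.EM

open Finset

theorem tt : S_TT := by
  classical
  intro n L m G _ hP U hU
  have key : ∀ k : ℕ, (∃ T : Finset (Fin n), T.card ≤ 2 * k ∧ ∀ v ∉ T, ∀ w ∉ T, v ≠ w → 64 * 1024 * cn G U v w < U.card) ∨
      (∃ g : Fin k × Fin 2 → Fin n, Function.Injective g ∧ ∀ j, U.card ≤ 64 * 1024 * cn G U (g (j, 0)) (g (j, 1))) := by
    intro k
    induction k with
    | zero =>
      right
      exact ⟨fun p => p.1.elim0, fun p => p.1.elim0, fun j => j.elim0⟩
    | succ k ih =>
      rcases ih with ⟨T, hT, h⟩ | ⟨g, hg, hb⟩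
      · exact Or.inl ⟨T, by omega, h⟩
      · by_cases hgood : ∀ v ∉ univ.image g, ∀ w ∉ univ.image g, v ≠ w → 64 * 1024 * cn G U v w < U.card
        · refine Or.inl ⟨univ.image g, ?_, hgood⟩
          refine card_image_le.trans ?_
          rw [card_univ, Fintype.card_prod, Fintype.card_fin, Fintype.card_fin]
          omega
        · right
          push_neg at hgood
          obtain ⟨v, hv, w, hw, hvw, hc⟩ := hgood
          have hv' : ∀ p, g p ≠ v := fun p hp => hv (mem_image.2 ⟨p, mem_univ _, hp⟩)
          have hw' : ∀ p, g p ≠ w := fun p hp => hw (mem_image.2 ⟨p, mem_univ _, hp⟩)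
          refine ⟨fun p => if h : (p.1 : ℕ) < k then g (⟨p.1, h⟩, p.2) else if p.2 = 0 then v else w, ?_, ?_⟩
          · rintro ⟨i, b⟩ ⟨j, c⟩ hij
            have b01 : b = 0 ∨ b = 1 := by omega
            have c01 : c = 0 ∨ c = 1 := by omega
            by_cases hi : (i : ℕ) < k
            · by_cases hj : (j : ℕ) < k
              · simp only [hi, hj, dite_true] at hij
                have := hg hij
                rw [Prod.mk.injEq, Fin.mk.injEq] at this
                exact Prod.ext (Fin.ext this.1) this.2
              · simp only [hi, hj, dite_true, dite_false] at hij
                rcases c01 with rfl | rfl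
                · rw [if_pos rfl] at hij
                  exact absurd hij (hv' _)
                · rw [if_neg (by decide)] at hij
                  exact absurd hij (hw' _)
            · by_cases hj : (j : ℕ) < k
              · simp only [hi, hj, dite_true, dite_false] at hij
                rcases b01 with rfl | rfl
                · rw [if_pos rfl] at hij
                  exact absurd hij.symm (hv' _)
                · rw [if_neg (by decide)] at hij
                  exact absurd hij.symm (hw' _)
              · simp only [hi, hj, dite_false] at hij
                have hij' : i = j := Fin.ext (by omega)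
                subst hij'
                rcases b01 with rfl | rfl <;> rcases c01 with rfl | rfl
                · rfl
                · rw [if_pos rfl, if_neg (by decide)] at hij
                  exact absurd hij hvw
                · rw [if_pos rfl, if_neg (by decide)] at hij
                  exact absurd hij.symm hvw
                · rfl
          · intro j
            by_cases hj : (j : ℕ) < k
            · simp only [hj, dite_true]
              exact hb ⟨j, hj⟩
            · have e1 : ((1 : Fin 2) = 0) = False := by simp
              simp only [hj, dite_false, if_true, e1, if_false]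
              exact hc
  rcases key m with h | ⟨g, hg, hb⟩
  · exact h
  · obtain ⟨j, hj⟩ := hP U hU g hg
    exact absurd (hb j) (not_le.2 hj)

end Pool.Agent.K4H65.EM
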