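import Pool.Agent.K4H25.FH.Spec

set_option autoImplicit false

namespace Pool.Agent.K4H25.FH

open Finset

/-- third difference = third derivative -/
theorem D3m (q q1 q2 q3 : ℝ → ℝ) (a : ℝ) (hc : ContinuousOn q (Set.Icc a (a + 3)))
    (h1 : ∀ x, a < x → x < a + 3 → HasDerivAt q (q1 x) x) (h2 : ∀ x, a < x → x < a + 3 → HasDerivAt q1 (q2 x) x)
    (h3 : ∀ x, a < x → x < a + 3 → HasDerivAt q2 (q3 x) x) :
    ∃ z, a < z ∧ z < a + 3 ∧ q (a + 3) - 3 * q (a + 2) + 3 * q (a + 1) - q a = q3 z := by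
  -- first step
  have s1 : ∃ x ∈ Set.Ioo a (a + 1), q1 (x + 2) - 2 * q1 (x + 1) + q1 x =
      ((q (a + 1 + 2) - 2 * q (a + 1 + 1) + q (a + 1)) - (q (a + 2) - 2 * q (a + 1) + q a)) / (a + 1 - a) := by
    refine exists_hasDerivAt_eq_slope (fun y => q (y + 2) - 2 * q (y + 1) + q y)
      (fun y => q1 (y + 2) - 2 * q1 (y + 1) + q1 y) (by linarith) ?_ ?_
    · refine ((ContinuousOn.sub ?_ (ContinuousOn.mul continuousOn_const ?_))).add ?_
      · exact hc.comp (by fun_prop) (fun y hy => ⟨by linarith [hy.1], by linarith [hy.2]⟩)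
      · exact hc.comp (by fun_prop) (fun y hy => ⟨by linarith [hy.1], by linarith [hy.2]⟩)
      · exact hc.mono (fun y hy => ⟨hy.1, by linarith [hy.2]⟩)
    · intro y hy
      have e1 := (h1 (y + 2) (by linarith [hy.1]) (by linarith [hy.2])).comp_add_const y 2
      have e2 := (h1 (y + 1) (by linarith [hy.1]) (by linarith [hy.2])).comp_add_const y 1
      have e3 := h1 y hy.1 (by linarith [hy.2])
      exact (e1.sub (e2.const_mul 2)).add e3
  obtain ⟨x, hx, ex⟩ := s1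
  have s2 : ∃ y ∈ Set.Ioo x (x + 1), q2 (y + 1) - q2 y = ((q1 (x + 1 + 1) - q1 (x + 1)) - (q1 (x + 1) - q1 x)) / (x + 1 - x) := by
    refine exists_hasDerivAt_eq_slope (fun y => q1 (y + 1) - q1 y) (fun y => q2 (y + 1) - q2 y) (by linarith) ?_ ?_
    · intro y hy
      have e1 := (h2 (y + 1) (by linarith [hy.1, hx.1]) (by linarith [hy.2, hx.2])).comp_add_const y 1
      have e2 := h2 y (by linarith [hy.1, hx.1]) (by linarith [hy.2, hx.2])
      exact (e1.sub e2).continuousAt.continuousWithinAt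
    · intro y hy
      have e1 := (h2 (y + 1) (by linarith [hy.1, hx.1]) (by linarith [hy.2, hx.2])).comp_add_const y 1
      have e2 := h2 y (by linarith [hy.1, hx.1]) (by linarith [hy.2, hx.2])
      exact e1.sub e2
  obtain ⟨y, hy, ey⟩ := s2
  have s3 : ∃ z ∈ Set.Ioo y (y + 1), q3 z = (q2 (y + 1) - q2 y) / (y + 1 - y) := by
    refine exists_hasDerivAt_eq_slope q2 q3 (by linarith) ?_ ?_
    · intro z hz
      exact (h3 z (by linarith [hz.1, hy.1, hx.1]) (by linarith [hz.2, hy.2, hx.2])).continuousAt.continuousWithinAt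
    · intro z hz
      exact h3 z (by linarith [hz.1, hy.1, hx.1]) (by linarith [hz.2, hy.2, hx.2])
  obtain ⟨z, hz, ez⟩ := s3
  refine ⟨z, by linarith [hz.1, hy.1, hx.1], by linarith [hz.2, hy.2, hx.2], ?_⟩
  have r1 : a + 1 + 2 = a + 3 := by ring
  have r2 : a + 1 + 1 = a + 2 := by ring
  have r3 : x + 1 + 1 = x + 2 := by ring
  rw [r1, r2, add_sub_cancel_left, div_one] at ex
  rw [r3, add_sub_cancel_left, div_one] at ey
  rw [add_sub_cancel_left, div_one] at ez
  linarith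

/-- derivatives of a power -/
theorem pw (s c : ℝ) {x : ℝ} (hx : 0 < x + c) : HasDerivAt (fun y : ℝ => (y + c) ^ s) (s * (x + c) ^ (s - 1)) x := by
  have h1 := ((hasDerivAt_id x).add_const c).rpow_const (p := s) (Or.inl hx.ne')
  simpa using h1

theorem gam_succ {H : ℝ} (n : ℕ) : gam H ((n : ℤ) + 1) = (((n : ℝ) + 2) ^ (2 * H) - 2 * ((n : ℝ) + 1) ^ (2 * H) + (n : ℝ) ^ (2 * H)) / 2 := by
  unfold gam
  push_cast
  have h0 : (0 : ℝ) ≤ n := Nat.cast_nonneg n
  rw [abs_of_nonneg (by linarith : (0 : ℝ) ≤ (n : ℝ) + 1 + 1), abs_of_nonneg (by linarith : (0 : ℝ) ≤ (n : ℝ) + 1),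
    abs_of_nonneg (by linarith : (0 : ℝ) ≤ (n : ℝ) + 1 - 1)]
  have e1 : (n : ℝ) + 1 + 1 = n + 2 := by ring
  have e2 : (n : ℝ) + 1 - 1 = n := by ring
  rw [e1, e2]

theorem phi_succ {H : ℝ} (n : ℕ) : phi H (n + 1) = -(((n : ℝ) + 3) ^ (2 * H) - 3 * ((n : ℝ) + 2) ^ (2 * H) +
    3 * ((n : ℝ) + 1) ^ (2 * H) - (n : ℝ) ^ (2 * H)) / 2 := by
  unfold phi
  have h1 := gam_succ (H := H) n
  have h2 := gam_succ (H := H) (n + 1)
  push_cast at h1 h2 ⊢
  rw [h1, h2]
  have e1 : (n : ℝ) + 1 + 2 = n + 3 := by ring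
  have e2 : (n : ℝ) + 1 + 1 = n + 2 := by ring
  rw [e1, e2]
  ring

theorem dlt_succ {H : ℝ} (n : ℕ) : dlt H ((n : ℤ) + 1) = phi H (n + 1) - phi H n := by
  unfold dlt phi
  push_cast
  have e : (n : ℤ) + 1 - 1 = n := by ring
  rw [e]
  ring

theorem phi_zero {H : ℝ} (h : 1 / 2 < H) : phi H 0 = 2 - (2 : ℝ) ^ (2 * H) / 2 := by
  unfold phi
  have h1 := gam_succ (H := H) 0
  have h2 : gam H ((0 : ℕ) : ℤ) = 1 := by
    unfold gam
    have : (0 : ℝ) ^ (2 * H) = 0 := Real.zero_rpow (by linarith)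
    simp [this]
  rw [h2]
  have h3 : gam H (((0 : ℕ) : ℤ) + 1) = ((2 : ℝ) ^ (2 * H) - 2) / 2 := by
    rw [h1]
    have : (0 : ℝ) ^ (2 * H) = 0 := Real.zero_rpow (by linarith)
    norm_num
    exact this
  rw [h3]
  ring

theorem phi_pos {H : ℝ} (h : 1 / 2 < H) (h1 : H < 1) (n : ℕ) : 0 < phi H n := by
  cases n with
  | zero =>
    rw [phi_zero h]
    have : (2 : ℝ) ^ (2 * H) < 2 ^ (2 : ℝ) := Real.rpow_lt_rpow_of_exponent_lt (by norm_num) (by linarith)
    norm_num at this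
    linarith
  | succ n =>
    rw [phi_succ]
    set s : ℝ := 2 * H with hs
    have hs1 : 1 < s := by linarith
    have hs2 : s < 2 := by linarith
    have hn : (0 : ℝ) ≤ n := Nat.cast_nonneg n
    obtain ⟨z, hz1, hz2, e⟩ := D3m (fun y => y ^ s) (fun y => s * y ^ (s - 1)) (fun y => s * ((s - 1) * y ^ (s - 1 - 1)))
      (fun y => s * ((s - 1) * ((s - 1 - 1) * y ^ (s - 1 - 1 - 1)))) n
      (by
        refine ContinuousOn.rpow_const continuousOn_id fun x _ => Or.inr (by linarith))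
      (fun x hx _ => by
        have := pw s 0 (x := x) (by linarith)
        simpa using this)
      (fun x hx _ => by
        have := (pw (s - 1) 0 (x := x) (by linarith)).const_mul s
        simpa using this)
      (fun x hx _ => by
        have := ((pw (s - 1 - 1) 0 (x := x) (by linarith)).const_mul (s - 1)).const_mul s
        simpa using this)
    rw [e]
    have hz0 : 0 < z := by linarith
    have hp : 0 < z ^ (s - 1 - 1 - 1) := Real.rpow_pos_of_pos hz0 _
    have : 0 < s * ((s - 1) * ((2 - s) * z ^ (s - 1 - 1 - 1))) := by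
      have : 0 < s - 1 := by linarith
      have : 0 < 2 - s := by linarith
      positivity
    have e2 : -(s * ((s - 1) * ((s - 1 - 1) * z ^ (s - 1 - 1 - 1)))) / 2 =
      s * ((s - 1) * ((2 - s) * z ^ (s - 1 - 1 - 1))) / 2 := by ring
    rw [e2]
    linarith

theorem key {H : ℝ} (h : 1 / 2 < H) (h1 : H < 1) (n : ℕ) :
    ((n : ℝ) + 1) * (- dlt H ((n : ℤ) + 1)) ≤ 3 * phi H n := by
  rw [dlt_succ]
  have hp0 := phi_pos h h1 n
  have hp1 := phi_pos h h1 (n + 1)
  suffices hmain : ((n : ℝ) - 2) * phi H n ≤ ((n : ℝ) + 1) * phi H (n + 1) by nlinarith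
  rcases le_or_gt n 2 with hn | hn
  · have h2 : ((n : ℝ) - 2) ≤ 0 := by
      have : (n : ℝ) ≤ 2 := by exact_mod_cast hn
      linarith
    have h3 : ((n : ℝ) - 2) * phi H n ≤ 0 := mul_nonpos_of_nonpos_of_nonneg h2 hp0.le
    have h4 : 0 ≤ ((n : ℝ) + 1) * phi H (n + 1) := by positivity
    linarith
  · obtain ⟨m, rfl⟩ : ∃ m : ℕ, n = m + 1 := ⟨n - 1, by omega⟩
    have hm : (2 : ℝ) ≤ m := by exact_mod_cast (by omega : 2 ≤ m)
    rw [phi_succ, phi_succ]
    set s : ℝ := 2 * H with hs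
    have hs1 : 1 < s := by linarith
    have hs2 : s < 2 := by linarith
    push_cast
    have c1 : (m : ℝ) + 1 - 2 = m - 1 := by ring
    have c2 : (m : ℝ) + 1 + 1 = m + 2 := by ring
    rw [c1, c2]
    obtain ⟨z, hz1, hz2, e⟩ := D3m (fun y => (m - 1) * (y + 0) ^ s - (m + 2) * (y + 1) ^ s)
      (fun y => (m - 1) * (s * (y + 0) ^ (s - 1)) - (m + 2) * (s * (y + 1) ^ (s - 1)))
      (fun y => (m - 1) * (s * ((s - 1) * (y + 0) ^ (s - 1 - 1))) - (m + 2) * (s * ((s - 1) * (y + 1) ^ (s - 1 - 1))))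
      (fun y => (m - 1) * (s * ((s - 1) * ((s - 1 - 1) * (y + 0) ^ (s - 1 - 1 - 1)))) -
        (m + 2) * (s * ((s - 1) * ((s - 1 - 1) * (y + 1) ^ (s - 1 - 1 - 1))))) m
      (fun x hx => by
        have hx0 : 0 < x + 0 := by linarith [hx.1]
        have hx1 : 0 < x + 1 := by linarith [hx.1]
        exact (((pw s 0 hx0).const_mul _).sub ((pw s 1 hx1).const_mul _)).continuousAt.continuousWithinAt)
      (fun x hx _ => ((pw s 0 (by linarith)).const_mul _).sub ((pw s 1 (by linarith)).const_mul _))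
      (fun x hx _ => (((pw (s - 1) 0 (by linarith)).const_mul _).const_mul _).sub
        (((pw (s - 1) 1 (by linarith)).const_mul _).const_mul _))
      (fun x hx _ => ((((pw (s - 1 - 1) 0 (by linarith)).const_mul _).const_mul _).const_mul _).sub
        ((((pw (s - 1 - 1) 1 (by linarith)).const_mul _).const_mul _).const_mul _))
    simp only [add_zero] at e
    have hz0 : 0 < z := by linarith
    -- the sign of the third derivative
    have hr : (m - 1) * z ^ (s - 1 - 1 - 1) ≤ (m + 2) * (z + 1) ^ (s - 1 - 1 - 1) := by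
      have e3 : s - 1 - 1 - 1 = -(3 - s) := by ring
      rw [e3, Real.rpow_neg hz0.le, Real.rpow_neg (by linarith)]
      have a1 : 0 < z ^ (3 - s) := Real.rpow_pos_of_pos hz0 _
      have a2 : 0 < (z + 1) ^ (3 - s) := Real.rpow_pos_of_pos (by linarith) _
      rw [← div_eq_mul_inv, ← div_eq_mul_inv, div_le_div_iff₀ a1 a2]
      have a3 : (z + 1) ^ (3 - s) = ((z + 1) / z) ^ (3 - s) * z ^ (3 - s) := by
        rw [Real.div_rpow (by linarith) hz0.le, div_mul_cancel₀ _ a1.ne']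
      have a4 : ((z + 1) / z) ^ (3 - s) ≤ ((z + 1) / z) ^ (2 : ℝ) :=
        Real.rpow_le_rpow_of_exponent_le (by rw [le_div_iff₀ hz0]; linarith) (by linarith)
      rw [Real.rpow_two] at a4
      have a5 : (z + 1) / z ≤ ((m : ℝ) + 1) / m := by
        rw [div_le_div_iff₀ hz0 (by linarith)]
        nlinarith
      have a6 : ((z + 1) / z) ^ 2 ≤ (((m : ℝ) + 1) / m) ^ 2 := by
        have : 0 ≤ (z + 1) / z := by positivity
        gcongr
      have a7 : ((m : ℝ) - 1) * (((m : ℝ) + 1) / m) ^ 2 ≤ m + 2 := by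
        rw [div_pow, mul_div_assoc', div_le_iff₀ (by positivity)]
        nlinarith
      have a8 : ((m : ℝ) - 1) * ((z + 1) / z) ^ (3 - s) ≤ m + 2 := by
        refine le_trans (mul_le_mul_of_nonneg_left (a4.trans a6) (by linarith)) a7
      rw [a3]
      calc (m - 1) * (((z + 1) / z) ^ (3 - s) * z ^ (3 - s)) = ((m - 1) * ((z + 1) / z) ^ (3 - s)) * z ^ (3 - s) := by ring
        _ ≤ (m + 2) * z ^ (3 - s) := mul_le_mul_of_nonneg_right a8 a1.le
    have hfin : 0 ≤ (m - 1) * (s * ((s - 1) * ((s - 1 - 1) * z ^ (s - 1 - 1 - 1)))) -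
        (m + 2) * (s * ((s - 1) * ((s - 1 - 1) * (z + 1) ^ (s - 1 - 1 - 1)))) := by
      have e4 : (m - 1) * (s * ((s - 1) * ((s - 1 - 1) * z ^ (s - 1 - 1 - 1)))) -
        (m + 2) * (s * ((s - 1) * ((s - 1 - 1) * (z + 1) ^ (s - 1 - 1 - 1)))) =
        s * (s - 1) * (2 - s) * ((m + 2) * (z + 1) ^ (s - 1 - 1 - 1) - (m - 1) * z ^ (s - 1 - 1 - 1)) := by ring
      rw [e4]
      have : 0 < s - 1 := by linarith
      have : 0 < 2 - s := by linarith
      have := sub_nonneg.2 hr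
      positivity
    rw [← e] at hfin
    have r1 : (m : ℝ) + 3 + 1 = m + 4 := by ring
    have r2 : (m : ℝ) + 2 + 1 = m + 3 := by ring
    have r3 : (m : ℝ) + 1 + 1 = m + 2 := by ring
    have r4 : (m : ℝ) + 1 + 3 = m + 4 := by ring
    have r5 : (m : ℝ) + 1 + 2 = m + 3 := by ring
    rw [r1, r2, r3] at hfin
    rw [r4, r5]
    nlinarith

end Pool.Agent.K4H25.FH
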