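import Pool.Agent.K4H95.FHKey

set_option autoImplicit false

namespace Pool.Agent.K4H25.FH

open Finset

theorem gam_even {H : ℝ} (j : ℤ) : gam H (-j) = gam H j := by
  unfold gam
  push_cast
  have e1 : |(-(j : ℝ)) + 1| = |(j : ℝ) - 1| := by rw [← abs_neg]; congr 1; ring
  have e2 : |(-(j : ℝ)) - 1| = |(j : ℝ) + 1| := by rw [← abs_neg]; congr 1; ring
  rw [e1, e2, abs_neg]
  ring

theorem dlt_even {H : ℝ} (j : ℤ) : dlt H (-j) = dlt H j := by
  unfold dlt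
  have e1 : gam H (-j + 1) = gam H (j - 1) := by rw [← gam_even]; congr 1; ring
  have e2 : gam H (-j - 1) = gam H (j + 1) := by rw [← gam_even]; congr 1; ring
  rw [e1, e2, gam_even]
  ring

/-- `3^s - 4 2^s + 7 > 0` for `s < 2` -/
theorem three_two {s : ℝ} (hs2 : s < 2) : 0 < (3 : ℝ) ^ s - 4 * (2 : ℝ) ^ s + 7 := by
  set u : ℝ := (2 : ℝ) ^ (s - 2) with hu
  have hu0 : 0 < u := Real.rpow_pos_of_pos (by norm_num) _
  have e2 : (2 : ℝ) ^ s = 4 * u := by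
    rw [hu, Real.rpow_sub (by norm_num)]
    norm_num
    ring
  have e3 : (3 : ℝ) ^ s = 9 * (3 : ℝ) ^ (s - 2) := by
    rw [Real.rpow_sub (by norm_num)]
    norm_num
    ring
  have h1 : (3 : ℝ) < (2 : ℝ) ^ (16 / 9 : ℝ) := by
    have h2 : (3 : ℝ) ^ 9 < ((2 : ℝ) ^ (16 / 9 : ℝ)) ^ 9 := by
      rw [← Real.rpow_natCast ((2 : ℝ) ^ (16 / 9 : ℝ)) 9, ← Real.rpow_mul (by norm_num)]
      norm_num
    exact lt_of_pow_lt_pow_left₀ 9 (by positivity) h2
  have h3 : u ^ (16 / 9 : ℝ) < (3 : ℝ) ^ (s - 2) := by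
    have h4 : u ^ (16 / 9 : ℝ) = ((2 : ℝ) ^ (16 / 9 : ℝ)) ^ (s - 2) := by
      rw [hu, ← Real.rpow_mul (by norm_num), ← Real.rpow_mul (by norm_num), mul_comm]
    rw [h4]
    exact Real.rpow_lt_rpow_of_neg (by norm_num) h1 (by linarith)
  have h5 : 1 + (16 / 9 : ℝ) * (u - 1) ≤ (1 + (u - 1)) ^ (16 / 9 : ℝ) :=
    one_add_mul_self_le_rpow_one_add (by linarith) (by norm_num)
  rw [show (1 : ℝ) + (u - 1) = u by ring] at h5
  rw [e2, e3]
  linarith

theorem dlt_one {H : ℝ} (h : 1 / 2 < H) : dlt H 1 = -((3 : ℝ) ^ (2 * H) - 4 * (2 : ℝ) ^ (2 * H) + 7) / 2 := by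
  have h1 := dlt_succ (H := H) 0
  have h2 := phi_succ (H := H) 0
  have h3 := phi_zero h
  have h0 : (0 : ℝ) ^ (2 * H) = 0 := Real.zero_rpow (by linarith)
  simp only [Nat.cast_zero, zero_add, h0, Real.one_rpow] at h1 h2
  rw [h1, h2, h3]
  ring

theorem dlt_one_neg {H : ℝ} (h : 1 / 2 < H) (h1 : H < 1) : dlt H 1 < 0 := by
  rw [dlt_one h]
  have := three_two (s := 2 * H) (by linarith)
  linarith

theorem dlt_succ_nonpos {H : ℝ} (h : 1 / 2 < H) (h1 : H < 1) (n : ℕ) : dlt H ((n : ℤ) + 1) ≤ 0 := by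
  cases n with
  | zero =>
    have := dlt_one_neg h h1
    simpa using this.le
  | succ n =>
    rw [dlt_succ, phi_succ, phi_succ]
    set s : ℝ := 2 * H with hs
    have hs1 : 1 < s := by linarith
    have hs2 : s < 2 := by linarith
    have hn : (0 : ℝ) ≤ n := Nat.cast_nonneg n
    obtain ⟨z, hz1, hz2, e⟩ := D3m (fun y => (y + 1) ^ s - (y + 0) ^ s)
      (fun y => s * (y + 1) ^ (s - 1) - s * (y + 0) ^ (s - 1))
      (fun y => s * ((s - 1) * (y + 1) ^ (s - 1 - 1)) - s * ((s - 1) * (y + 0) ^ (s - 1 - 1)))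
      (fun y => s * ((s - 1) * ((s - 1 - 1) * (y + 1) ^ (s - 1 - 1 - 1))) -
        s * ((s - 1) * ((s - 1 - 1) * (y + 0) ^ (s - 1 - 1 - 1)))) n
      (by
        refine ContinuousOn.sub ?_ ?_
        · exact ContinuousOn.rpow_const (by fun_prop) fun x _ => Or.inr (by linarith)
        · exact ContinuousOn.rpow_const (by fun_prop) fun x _ => Or.inr (by linarith))
      (fun x hx _ => (pw s 1 (by linarith)).sub (pw s 0 (by linarith)))
      (fun x hx _ => ((pw (s - 1) 1 (by linarith)).const_mul _).sub ((pw (s - 1) 0 (by linarith)).const_mul _))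
      (fun x hx _ => (((pw (s - 1 - 1) 1 (by linarith)).const_mul _).const_mul _).sub
        (((pw (s - 1 - 1) 0 (by linarith)).const_mul _).const_mul _))
    simp only [add_zero] at e
    have hz0 : 0 < z := by linarith
    have hr : (z + 1) ^ (s - 1 - 1 - 1) ≤ z ^ (s - 1 - 1 - 1) :=
      Real.rpow_le_rpow_of_nonpos hz0 (by linarith) (by linarith)
    have hfin : 0 ≤ s * ((s - 1) * ((s - 1 - 1) * (z + 1) ^ (s - 1 - 1 - 1))) -
        s * ((s - 1) * ((s - 1 - 1) * z ^ (s - 1 - 1 - 1))) := by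
      have e4 : s * ((s - 1) * ((s - 1 - 1) * (z + 1) ^ (s - 1 - 1 - 1))) -
        s * ((s - 1) * ((s - 1 - 1) * z ^ (s - 1 - 1 - 1))) =
        s * (s - 1) * (2 - s) * (z ^ (s - 1 - 1 - 1) - (z + 1) ^ (s - 1 - 1 - 1)) := by ring
      rw [e4]
      have : 0 < s - 1 := by linarith
      have : 0 < 2 - s := by linarith
      have := sub_nonneg.2 hr
      positivity
    rw [← e] at hfin
    push_cast
    have r1 : (n : ℝ) + 3 + 1 = n + 4 := by ring
    have r2 : (n : ℝ) + 2 + 1 = n + 3 := by ring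
    have r3 : (n : ℝ) + 1 + 1 = n + 2 := by ring
    have r4 : (n : ℝ) + 1 + 3 = n + 4 := by ring
    have r5 : (n : ℝ) + 1 + 2 = n + 3 := by ring
    rw [r1, r2, r3] at hfin
    rw [r4, r5, r3]
    linarith

theorem dlt_nonpos {H : ℝ} (h : 1 / 2 < H) (h1 : H < 1) {j : ℤ} (hj : j ≠ 0) : dlt H j ≤ 0 := by
  rcases lt_or_gt_of_ne hj with hj | hj
  · obtain ⟨n, hn⟩ : ∃ n : ℕ, j = -((n : ℤ) + 1) := ⟨(-j - 1).toNat, by omega⟩
    rw [hn, dlt_even]
    exact dlt_succ_nonpos h h1 n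
  · obtain ⟨n, hn⟩ : ∃ n : ℕ, j = (n : ℤ) + 1 := ⟨(j - 1).toNat, by omega⟩
    rw [hn]
    exact dlt_succ_nonpos h h1 n

theorem row_aux {H : ℝ} (i : ℤ) (M : ℕ) : ∑ m ∈ range M, dlt H (i - (m : ℤ)) =
    (gam H i - gam H (i + 1)) - (gam H (i - M) - gam H (i - M + 1)) := by
  induction M with
  | zero => simp
  | succ M ih =>
    rw [sum_range_succ, ih]
    unfold dlt
    push_cast
    have e1 : i - ((M : ℤ) + 1) = i - M - 1 := by ring
    have e2 : i - (M : ℤ) - 1 + 1 = i - M := by ring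
    rw [e1, e2]
    ring

theorem row {H : ℝ} (i n : ℕ) : ∑ m ∈ range (i + n + 1), dlt H ((i : ℤ) - (m : ℤ)) = phi H i + phi H n := by
  rw [row_aux]
  unfold phi
  have e1 : (i : ℤ) - ((i + n + 1 : ℕ) : ℤ) = -((n : ℤ) + 1) := by push_cast; ring
  have e2 : -((n : ℤ) + 1) + 1 = -(n : ℤ) := by ring
  rw [e1, e2, gam_even, gam_even]
  ring

theorem gam_nonneg {H : ℝ} (h : 1 / 2 < H) (j : ℤ) : 0 ≤ gam H j := by
  have hs1 : 1 ≤ 2 * H := by linarith
  have key : ∀ n : ℕ, 0 ≤ gam H ((n : ℤ) + 1) := by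
    intro n
    rw [gam_succ]
    have hn : (0 : ℝ) ≤ n := Nat.cast_nonneg n
    have hc := (convexOn_rpow hs1).2 (show (n : ℝ) ∈ Set.Ici 0 from hn) (show (n : ℝ) + 2 ∈ Set.Ici 0 by
      change (0 : ℝ) ≤ n + 2
      linarith) (show (0 : ℝ) ≤ 1 / 2 by norm_num) (show (0 : ℝ) ≤ 1 / 2 by norm_num) (by norm_num)
    simp only [smul_eq_mul] at hc
    have e1 : 1 / 2 * (n : ℝ) + 1 / 2 * (n + 2) = n + 1 := by ring
    rw [e1] at hc
    linarith
  rcases lt_trichotomy j 0 with hj | hj | hj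
  · obtain ⟨n, hn⟩ : ∃ n : ℕ, j = -((n : ℤ) + 1) := ⟨(-j - 1).toNat, by omega⟩
    rw [hn, gam_even]
    exact key n
  · subst hj
    unfold gam
    have : (0 : ℝ) ^ (2 * H) = 0 := Real.zero_rpow (by linarith)
    simp [this]
  · obtain ⟨n, hn⟩ : ∃ n : ℕ, j = (n : ℤ) + 1 := ⟨(j - 1).toNat, by omega⟩
    rw [hn]
    exact key n

theorem mt_dlt {H : ℝ} (h : 1 / 2 < H) (h1 : H < 1) : MT (dlt H) (phi H) 3 where
  nonpos := fun _ hj => dlt_nonpos h h1 hj
  pos := phi_pos h h1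
  row := row
  key := key h h1

end Pool.Agent.K4H25.FH
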